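import Pool.Agent.K7.H41.OP.Stm

set_option autoImplicit false

/-!
# Project OP, job EXT
-/

namespace Pool.Agent.K7.H45.OP

open Pool.Agent.K7.H41.OP

section

variable {G A : Type} [Group G] [Group A]

lemma cen_comm {f : G →* A} (hf : Cen f) (g : G) (a : A) : a * f g = f g * a :=
  Subgroup.mem_center_iff.1 (hf g) a

lemma mulCen (f g : G →* A) (hf : Cen f) (hg : Cen g) :
    ∃ h : G →* A, Cen h ∧ ∀ a, h a = f a * g a := by
  refine ⟨MonoidHom.mk' (fun a => f a * g a) ?_, ?_, fun a => rfl⟩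
  · intro a b
    rw [map_mul, map_mul]
    calc f a * f b * (g a * g b) = f a * (f b * g a) * g b := by simp only [mul_assoc]
      _ = f a * (g a * f b) * g b := by rw [cen_comm hf b (g a)]
      _ = f a * g a * (f b * g b) := by simp only [mul_assoc]
  · intro a
    exact mul_mem (hf a) (hg a)

lemma powCen (f : G →* A) (hf : Cen f) (m : ℕ) :
    ∃ h : G →* A, Cen h ∧ ∀ a, h a = f a ^ m := by
  refine ⟨MonoidHom.mk' (fun a => f a ^ m) ?_, ?_, fun a => rfl⟩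
  · intro a b
    have : Commute (f a) (f b) := cen_comm hf b (f a)
    rw [map_mul, this.mul_pow]
  · intro a
    exact pow_mem (hf a) m

lemma invCen (f : G →* A) (hf : Cen f) :
    ∃ h : G →* A, Cen h ∧ ∀ a, h a = (f a)⁻¹ := by
  refine ⟨MonoidHom.mk' (fun a => (f a)⁻¹) ?_, ?_, fun a => rfl⟩
  · intro a b
    rw [map_mul, mul_inv_rev, ← map_inv, ← map_inv, cen_comm hf a⁻¹ (f b⁻¹)]
  · intro a
    exact inv_mem (hf a)

lemma tauHom (f : A →* A) (hf : Cen f) (m : ℕ) : ∃ h : A →* A, ∀ a, h a = a * f a ^ m := by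
  obtain ⟨g, hg, hgf⟩ := powCen f hf m
  refine ⟨MonoidHom.mk' (fun a => a * g a) ?_, fun a => ?_⟩
  · intro a b
    rw [map_mul]
    calc a * b * (g a * g b) = a * (b * g a) * g b := by simp only [mul_assoc]
      _ = a * (g a * b) * g b := by rw [cen_comm hg a b]
      _ = a * g a * (b * g b) := by simp only [mul_assoc]
  · show a * g a = _
    rw [hgf]

lemma autCen (u : MulAut A) {z : A} (hz : z ∈ Subgroup.center A) : u z ∈ Subgroup.center A := by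
  rw [Subgroup.mem_center_iff] at hz ⊢
  intro g
  have h := congrArg u (hz (u⁻¹ g))
  rw [map_mul, map_mul] at h
  have e : u (u⁻¹ g) = g := by
    rw [← MulAut.mul_apply, mul_inv_cancel]; rfl
  rwa [e] at h

lemma compCen (u : MulAut A) (f : G →* A) (hf : Cen f) :
    ∃ h : G →* A, Cen h ∧ ∀ a, h a = u (f a) :=
  ⟨(u : A ≃* A).toMonoidHom.comp f, fun a => autCen u (hf a), fun _ => rfl⟩

end

section

variable {A B : Type} [Group A] [Group B]

/-- `al φ = k (1 + m ρ)` -/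
def Rep (m : ℕ) (φ : MulAut (A × B)) (k : MulAut A) : Prop :=
  ∃ ρ : A →* A, Cen ρ ∧ ∀ a, al φ a = k (a * ρ a ^ m)

lemma one_cen (G H : Type) [Group G] [Group H] : Cen (1 : G →* H) := fun _ => one_mem _

lemma al_apply (φ : MulAut (A × B)) (a : A) : al φ a = (φ (a, 1)).1 := rfl
lemma be_apply (φ : MulAut (A × B)) (b : B) : be φ b = (φ (1, b)).1 := rfl
lemma ga_apply (φ : MulAut (A × B)) (a : A) : ga φ a = (φ (a, 1)).2 := rfl

lemma al_mul (φ ψ : MulAut (A × B)) (a : A) :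
    al (φ * ψ) a = al φ (al ψ a) * be φ (ga ψ a) := by
  rw [al_apply, al_apply, be_apply, ga_apply, al_apply, MulAut.mul_apply, ← Prod.fst_mul,
    ← map_mul, Prod.mk_mul_mk, mul_one, one_mul]

lemma Rep.uniq {K : Subgroup (MulAut A)} {m : ℕ} (hB : Big K m) {φ : MulAut (A × B)}
    {k k' : MulAut A} (h : Rep m φ k) (h' : Rep m φ k') : k'⁻¹ * k ∈ K := by
  obtain ⟨ρ, hρ, h⟩ := h
  obtain ⟨ρ', hρ', h'⟩ := h'
  set u : MulAut A := k'⁻¹ * k with hu
  have e : ∀ a, u (a * ρ a ^ m) = a * ρ' a ^ m := by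
    intro a
    rw [hu, MulAut.mul_apply, ← h, h', ← MulAut.mul_apply, inv_mul_cancel]
    rfl
  obtain ⟨f, hf, hfe⟩ := compCen u ρ hρ
  obtain ⟨g, hg, hge⟩ := invCen f hf
  obtain ⟨r, hr, hre⟩ := mulCen ρ' g hρ' hg
  refine hB u r hr ?_
  intro a
  have h1 := e a
  rw [map_mul, map_pow, ← hfe] at h1
  have h2 : u a = a * ρ' a ^ m * (f a ^ m)⁻¹ := by rw [← h1]; group
  rw [h2, hre, hge]
  have hc : Commute (ρ' a) (f a)⁻¹ := by
    rw [← hge]; exact cen_comm hg a (ρ' a)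
  rw [hc.mul_pow, inv_pow, mul_assoc]

lemma Rep.mul {m M : ℕ} (hmM : m ∣ M) {φ ψ : MulAut (A × B)} {k k' : MulAut A}
    (h : Rep m φ k) (h' : Rep m ψ k')
    (hb : ∃ ρ : A →* A, Cen ρ ∧ ∀ a, be φ (ga ψ a) = ρ a ^ M) : Rep m (φ * ψ) (k * k') := by
  obtain ⟨ρ, hρ, h⟩ := h
  obtain ⟨ρ', hρ', h'⟩ := h'
  obtain ⟨σ, hσ, hb⟩ := hb
  obtain ⟨q, rfl⟩ := hmM
  obtain ⟨σ', hσ', hσe⟩ := powCen σ hσ q
  obtain ⟨τ, hτ⟩ := tauHom ρ' hρ' m
  -- `ρ` after `al ψ`
  obtain ⟨f, hf, hfe⟩ := compCen ((k * k')⁻¹ * k) (ρ.comp ((k' : A ≃* A).toMonoidHom.comp τ))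
    (fun a => hρ _)
  obtain ⟨g, hg, hge⟩ := compCen (k * k')⁻¹ σ' hσ'
  obtain ⟨r1, hr1, hr1e⟩ := mulCen ρ' f hρ' hf
  obtain ⟨r2, hr2, hr2e⟩ := mulCen r1 g hr1 hg
  refine ⟨r2, hr2, ?_⟩
  intro a
  have e1 : al ψ a = k' (τ a) := by rw [h', hτ]
  have c1 : Commute (r1 a) (g a) := cen_comm hg a (r1 a)
  have c2 : Commute (ρ' a) (f a) := cen_comm hf a (ρ' a)
  rw [al_mul, h, hb, hr2e, c1.mul_pow, hr1e, c2.mul_pow, ← mul_assoc, ← mul_assoc, ← hτ]
  rw [map_mul, map_mul, map_pow, map_pow, e1]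
  have e2 : (k * k') (f a) = k (ρ (k' (τ a))) := by
    rw [hfe, ← MulAut.mul_apply, mul_inv_cancel_left]
    rfl
  have e3 : (k * k') (g a) = σ' a := by
    rw [hge, ← MulAut.mul_apply, mul_inv_cancel]
    rfl
  rw [map_mul (k * k'), map_pow (k * k'), e2, e3, hσe, ← pow_mul, mul_comm q m]
  rfl

lemma Pm.of_dvd {G : Type} [Group G] {m M : ℕ} (h : m ∣ M) {x : G} (hx : Pm G M x) :
    Pm G m x := by
  obtain ⟨y, hy⟩ := hx
  obtain ⟨q, rfl⟩ := h
  refine ⟨y ^ q, ?_⟩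
  rwa [← pow_mul, mul_comm q m]

lemma comm_map {G H : Type} [Group G] [Group H] (f : G →* H) {x : G} (hx : x ∈ commutator G) :
    f x ∈ commutator H := by
  have h : commutator G ≤ (commutator H).comap f := by
    rw [commutator_def, Subgroup.commutator_le]
    intro a _ b _
    rw [Subgroup.mem_comap, map_commutatorElement]
    exact Subgroup.commutator_mem_commutator (Subgroup.mem_top _) (Subgroup.mem_top _)
  exact h hx

lemma Pm.map {G H : Type} [Group G] [Group H] (f : G →* H) {m : ℕ} {x : G} (hx : Pm G m x) :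
    Pm H m (f x) := by
  obtain ⟨y, hy⟩ := hx
  refine ⟨f y, ?_⟩
  have := comm_map f hy
  rwa [map_mul, map_inv, map_pow] at this

lemma rep_conj (m : ℕ) (g : A × B) : Rep m (MulAut.conj g) (MulAut.conj g.1) := by
  refine ⟨1, one_cen A A, fun a => ?_⟩
  rw [al_apply]
  simp [MulAut.conj_apply]

lemma rep_one (m : ℕ) : Rep m (1 : MulAut (A × B)) (1 : MulAut A) := by
  refine ⟨1, one_cen A A, fun a => ?_⟩
  rw [al_apply]
  simp

lemma z0_conj (g : A × B) : Z0 (MulAut.conj g) := by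
  have h : ∀ g : A × B, Cen (be (MulAut.conj g)) ∧ Cen (ga (MulAut.conj g)) := by
    intro g
    constructor
    · intro b
      rw [be_apply]
      simp [MulAut.conj_apply]
    · intro a
      rw [ga_apply]
      simp [MulAut.conj_apply]
  refine ⟨h g, ?_⟩
  rw [← map_inv]
  exact h g⁻¹

end

theorem ext (hBij : StBij) (hDiv : StDiv) (hMod : StMod) : StExt := by
  intro A B _ _ hA hB D K m hm hKn hKf hInn hBig H0 hH0 hH0f
  obtain ⟨tB, htB, hdiv⟩ := hDiv B hB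
  set M : ℕ := D.c ^ 2 * m * D.t * tB with hM
  have hMpos : 0 < M := by
    have h1 := D.hc
    have h2 := D.ht
    positivity
  have hFG : Group.FG (A × B) := inferInstance
  obtain ⟨HM, hMf, hMi, hMm⟩ := hMod (A × B) hFG M hMpos
  have hmM : m ∣ M := ⟨D.c ^ 2 * D.t * tB, by rw [hM]; ring⟩
  -- every element of `H0 ⊓ HM` has a representative
  have hex : ∀ φ ∈ H0 ⊓ HM, ∃ k : MulAut A, Rep m φ k := by
    intro φ hφ
    have h0 := (hH0 φ).1 hφ.1
    have h1 := (hMm φ).1 hφ.2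
    obtain ⟨k, ρ, hρ, hk⟩ := hBij A B D m hm φ h0 (fun a => by
      have h2 := Pm.map (MonoidHom.fst A B) (h1 (a, 1))
      exact Pm.of_dvd ⟨tB, hM⟩ h2)
    exact ⟨k, ρ, hρ, hk⟩
  have hbe : ∀ φ ∈ H0 ⊓ HM, ∀ ψ ∈ H0 ⊓ HM,
      ∃ ρ : A →* A, Cen ρ ∧ ∀ a, be φ (ga ψ a) = ρ a ^ M := by
    intro φ hφ ψ hψ
    have h0 := (hH0 φ).1 hφ.1
    have h1 := (hMm ψ).1 hψ.2
    refine hdiv M ⟨D.c ^ 2 * m * D.t, by rw [hM]; ring⟩ hMpos A (ga ψ) (be φ) ?_ h0.1.1
    intro a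
    have h2 := Pm.map (MonoidHom.snd A B) (h1 (a, 1))
    have e : MonoidHom.snd A B (ψ (a, 1) * (a, 1)⁻¹) = ga ψ a := by
      rw [ga_apply]
      simp
    rwa [e] at h2
  have hmul : ∀ φ ∈ H0 ⊓ HM, ∀ ψ ∈ H0 ⊓ HM, ∀ k k' : MulAut A, Rep m φ k → Rep m ψ k' →
      Rep m (φ * ψ) (k * k') :=
    fun φ hφ ψ hψ k k' h h' => Rep.mul hmM h h' (hbe φ hφ ψ hψ)
  let H : Subgroup (MulAut (A × B)) :=
    { carrier := {φ | φ ∈ H0 ⊓ HM ∧ ∃ k ∈ K, Rep m φ k}
      one_mem' := ⟨one_mem _, 1, one_mem _, rep_one m⟩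
      mul_mem' := by
        rintro φ ψ ⟨hφ, k, hk, h⟩ ⟨hψ, k', hk', h'⟩
        exact ⟨mul_mem hφ hψ, k * k', mul_mem hk hk', hmul φ hφ ψ hψ k k' h h'⟩
      inv_mem' := by
        rintro φ ⟨hφ, k, hk, h⟩
        have hφ' : φ⁻¹ ∈ H0 ⊓ HM := inv_mem hφ
        obtain ⟨k', h'⟩ := hex _ hφ'
        refine ⟨hφ', k', ?_, h'⟩
        have h1 := hmul _ hφ' _ hφ k' k h' h
        rw [inv_mul_cancel] at h1
        have h2 := Rep.uniq hBig h1 (rep_one m)
        rw [inv_one, one_mul] at h2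
        have h3 := mul_mem h2 (inv_mem hk)
        rwa [mul_inv_cancel_right] at h3 }
  have hHdef : ∀ φ, φ ∈ H ↔ φ ∈ H0 ⊓ HM ∧ ∃ k ∈ K, Rep m φ k := fun φ => Iff.rfl
  have hle : H ≤ H0 ⊓ HM := fun φ hφ => ((hHdef φ).1 hφ).1
  refine ⟨H, ?_, ?_, ?_⟩
  · rintro _ ⟨g, rfl⟩
    refine (hHdef _).2 ⟨⟨(hH0 _).2 (z0_conj g), hMi ⟨g, rfl⟩⟩, MulAut.conj g.1, hInn ⟨g.1, rfl⟩, ?_⟩
    exact rep_conj m g
  · -- finite index
    have hfi : (H0 ⊓ HM).FiniteIndex := inferInstance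
    have hrel : H.relIndex (H0 ⊓ HM) ≠ 0 := by
      have hex' := hex
      choose! κ hκ using hex'
      let f : (↥(H0 ⊓ HM)) ⧸ (H.subgroupOf (H0 ⊓ HM)) → (MulAut A ⧸ K) :=
        fun q => ((κ (Quotient.out q : ↥(H0 ⊓ HM)) : MulAut A) : MulAut A ⧸ K)
      have hfinj : Function.Injective f := by
        intro q q' hqq
        have h1 : (κ (Quotient.out q : ↥(H0 ⊓ HM)))⁻¹ * κ (Quotient.out q' : ↥(H0 ⊓ HM)) ∈ K :=
          QuotientGroup.eq.1 hqq
        set x : ↥(H0 ⊓ HM) := Quotient.out q with hx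
        set y : ↥(H0 ⊓ HM) := Quotient.out q' with hy
        have hxr := hκ x.1 x.2
        have hyr := hκ y.1 y.2
        have hxi : (x.1)⁻¹ ∈ H0 ⊓ HM := inv_mem x.2
        have hxir := hκ _ hxi
        have h2 := hmul _ hxi _ x.2 _ _ hxir hxr
        rw [inv_mul_cancel] at h2
        have h3 := Rep.uniq hBig h2 (rep_one m)
        rw [inv_one, one_mul] at h3
        have h4 := hmul _ hxi _ y.2 _ _ hxir hyr
        have h5 : κ (x.1)⁻¹ * κ y.1 ∈ K := by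
          have := mul_mem h3 h1
          rwa [mul_assoc, mul_inv_cancel_left] at this
        have h6 : (x.1)⁻¹ * y.1 ∈ H := (hHdef _).2 ⟨mul_mem hxi y.2, _, h5, h4⟩
        have h7 : (x : (↥(H0 ⊓ HM)) ⧸ (H.subgroupOf (H0 ⊓ HM))) = y := by
          rw [QuotientGroup.eq]
          exact h6
        rw [hx, hy] at h7
        simpa using h7
      have : Finite (MulAut A ⧸ K) := inferInstance
      have hfin : Finite ((↥(H0 ⊓ HM)) ⧸ (H.subgroupOf (H0 ⊓ HM))) := Finite.of_injective f hfinj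
      exact (Subgroup.finiteIndex_of_finite_quotient (H := H.subgroupOf (H0 ⊓ HM))).index_ne_zero
    refine ⟨?_⟩
    have h := Subgroup.relIndex_mul_index hle
    rw [← h]
    exact mul_ne_zero hrel hfi.index_ne_zero
  · intro α δ h
    obtain ⟨_, k, hk, hr⟩ := (hHdef _).1 h
    have h1 : Rep m (MulEquiv.prodCongr α δ : MulAut (A × B)) α := by
      refine ⟨1, one_cen A A, fun a => ?_⟩
      rw [al_apply]
      simp only [MonoidHom.one_apply, one_pow, mul_one]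
      rfl
    have h2 := Rep.uniq hBig h1 hr
    have h3 := mul_mem hk h2
    rwa [mul_inv_cancel_left] at h3

end Pool.Agent.K7.H45.OP
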