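import Pool.Agent.K7.H41.OP.Stm

set_option autoImplicit false

/-!
# Project OP, job POW
-/

namespace Pool.Agent.K7.H45.OP

open Pool.Agent.K7.H41.OP

section

variable {A C : Type} [Group A] [CommGroup C] (ι : C →* A) (hι : ∀ (c : C) (a : A), a * ι c = ι c * a)
  (X : A →* C)

/-- the central part -/
def zz (i j : ℤ) (a : A) : C := X a ^ i * X (ι (X a)) ^ j

lemma zz_mul (i j : ℤ) (a b : A) : zz ι X i j (a * b) = zz ι X i j a * zz ι X i j b := by
  unfold zz
  simp only [map_mul, mul_zpow]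
  rw [mul_mul_mul_comm]

include hι in
lemma TT_mul (i j : ℤ) (a b : A) :
    a * b * ι (zz ι X i j (a * b)) = a * ι (zz ι X i j a) * (b * ι (zz ι X i j b)) := by
  have h := hι (zz ι X i j a) b
  rw [zz_mul, map_mul]
  calc a * b * (ι (zz ι X i j a) * ι (zz ι X i j b))
      = a * (b * ι (zz ι X i j a)) * ι (zz ι X i j b) := by simp only [mul_assoc]
    _ = a * (ι (zz ι X i j a) * b) * ι (zz ι X i j b) := by rw [h]
    _ = a * ι (zz ι X i j a) * (b * ι (zz ι X i j b)) := by simp only [mul_assoc]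

variable (h3 : ∀ a : A, X (ι (X (ι (X a)))) = 1)

include h3 in
lemma TT_comp (i j k l : ℤ) (a : A) :
    (a * ι (zz ι X k l a)) * ι (zz ι X i j (a * ι (zz ι X k l a))) =
      a * ι (zz ι X (i + k) (j + l + i * k) a) := by
  have e1 : X (a * ι (zz ι X k l a)) = X a * X (ι (X a)) ^ k := by
    unfold zz
    simp only [map_mul, map_zpow, h3, one_zpow, mul_one]
  have e2 : X (ι (X (a * ι (zz ι X k l a)))) = X (ι (X a)) := by
    rw [e1]
    simp only [map_mul, map_zpow, h3, one_zpow, mul_one]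
  have e3 : zz ι X i j (a * ι (zz ι X k l a)) =
      (X a * X (ι (X a)) ^ k) ^ i * X (ι (X a)) ^ j := by
    rw [← e1]
    conv_rhs => rw [← e2]
    rfl
  rw [e3, mul_assoc, ← map_mul]
  congr 2
  unfold zz
  rw [mul_zpow, ← zpow_mul, zpow_add, zpow_add, zpow_add, mul_comm i k]
  generalize X a ^ k = u
  generalize X (ι (X a)) ^ l = v
  generalize X a ^ i = w
  generalize X (ι (X a)) ^ (k * i) = y
  generalize X (ι (X a)) ^ j = z
  rw [mul_comm w u]
  simp only [mul_assoc]
  congr 1
  rw [mul_left_comm]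
  congr 1
  rw [mul_left_comm v y z, mul_comm y (v * z), mul_assoc, mul_left_comm]

/-- the automorphisms `a ↦ a x(a)^i x(x(a))^j` -/
def TA (i j : ℤ) : MulAut A where
  toFun a := a * ι (zz ι X i j a)
  invFun a := a * ι (zz ι X (-i) (i * i - j) a)
  left_inv a := by
    dsimp only
    rw [TT_comp ι X h3]
    have e1 : -i + i = 0 := by ring
    have e2 : i * i - j + j + -i * i = 0 := by ring
    rw [e1, e2]
    simp [zz]
  right_inv a := by
    dsimp only
    rw [TT_comp ι X h3]
    have e1 : i + -i = 0 := by ring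
    have e2 : j + (i * i - j) + i * -i = 0 := by ring
    rw [e1, e2]
    simp [zz]
  map_mul' a b := TT_mul ι hι X i j a b

lemma TA_apply (i j : ℤ) (a : A) : TA ι hι X h3 i j a = a * ι (zz ι X i j a) := rfl

lemma TA_pow (i j : ℤ) (n : ℕ) (a : A) :
    ((TA ι hι X h3 i j) ^ n) a =
      a * ι (zz ι X (n * i) (n * j + (n * (n - 1) / 2 : ℤ) * i ^ 2) a) := by
  induction n generalizing a with
  | zero => simp [zz]
  | succ n ih =>
    rw [pow_succ, MulAut.mul_apply, ih, TA_apply, TT_comp ι X h3]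
    have e0 : ((n + 1 : ℕ) : ℤ) * ((n + 1 : ℕ) - 1) / 2 = (n * (n - 1) / 2 : ℤ) + n := by
      push_cast
      have : ((n : ℤ) + 1) * (n + 1 - 1) = n * (n - 1) + n * 2 := by ring
      rw [this, Int.add_mul_ediv_right _ _ (by norm_num)]
    rw [e0]
    have e1 : (n : ℤ) * i + i = ((n + 1 : ℕ) : ℤ) * i := by push_cast; ring
    have e2 : (n : ℤ) * j + (n * (n - 1) / 2 : ℤ) * i ^ 2 + j + (n : ℤ) * i * i =
        ((n + 1 : ℕ) : ℤ) * j + ((n * (n - 1) / 2 : ℤ) + n) * i ^ 2 := by push_cast; ring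
    rw [e1, e2]

end

theorem pow : StPow := by
  intro A _ E x hE hx h3 θ hθ
  let _inst : CommGroup (Subgroup.center A) :=
    { (inferInstance : Group (Subgroup.center A)) with
      mul_comm := fun a b => Subtype.ext (Subgroup.mem_center_iff.1 b.2 a) }
  set X : A →* Subgroup.center A := x.codRestrict (Subgroup.center A) hx with hX
  have hXa : ∀ a, ((X a : Subgroup.center A) : A) = x a := fun a => rfl
  have h3' : ∀ a : A, X ((Subgroup.center A).subtype (X ((Subgroup.center A).subtype (X a)))) = 1 := by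
    intro a
    apply Subtype.ext
    exact h3 a
  have hι : ∀ (c : Subgroup.center A) (a : A),
      a * (Subgroup.center A).subtype c = (Subgroup.center A).subtype c * a :=
    fun c a => Subgroup.mem_center_iff.1 c.2 a
  refine ⟨TA (C := Subgroup.center A) (Subgroup.center A).subtype hι X h3' 2 (2 - 2 * E), 1, ?_⟩
  rw [one_pow, mul_one]
  ext a
  rw [TA_pow, hθ]
  have e : (E : ℤ) * (2 - 2 * E) + (E * (E - 1) / 2 : ℤ) * 2 ^ 2 = 0 := by
    have h2 : (2 : ℤ) ∣ E * (E - 1) := (Int.even_mul_pred_self (E : ℤ)).two_dvd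
    obtain ⟨r, hr⟩ := h2
    rw [hr, Int.mul_ediv_cancel_left _ (by norm_num)]
    linear_combination (2 : ℤ) * (-hr)
  rw [e]
  unfold zz
  simp only [zpow_zero, mul_one]
  have : (E : ℤ) * 2 = ((2 * E : ℕ) : ℤ) := by push_cast; ring
  rw [this, zpow_natCast, map_pow]
  rfl

end Pool.Agent.K7.H45.OP
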